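import Pool.Agent.TH878.Mk.Dirs

set_option autoImplicit false

open Pool.Agent.W689.Mk Pool.Agent.TH878.Mk

namespace Pool.Agent.Results.MP_df2bd8_gt.CompleteDirections

/-- A closed affine manifold with parallel volume, given by a connected cover `X` with its group
`Γ`, developing map `dev` and holonomy `hol` (dimension `n`); `S` is a set of vectors of the model
space, read as parallel vector fields of the cover.
(1) If from every point of the cover the geodesics with the velocities in `S` are defined up to time
one, and the images of `S` under the linear holonomy span the model space, the structure is complete.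
(2) If this holds for the velocities `v` and `-v`, `v` in `S`, it is enough that the images of `S`
span a hyperplane.
(3) A nonempty subset of the affine space which is invariant under the holonomy and under small
translations in the directions of `S`, with images of `S` spanning, is the whole space. -/
theorem result (E X Γ : Type) [NormedAddCommGroup E] [NormedSpace ℝ E] [FiniteDimensional ℝ E]
    [TopologicalSpace X] [T2Space X] [SecondCountableTopology X] [ConnectedSpace X]
    [Group Γ] [MulAction Γ X] (dev : X → E) (hol : Γ →* (E ≃ᵃ[ℝ] E))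
    (D : AffData X Γ E dev hol) (S : Set E) :
    ((∀ x : X, ∀ v ∈ S, Geod dev x v) →
      Submodule.span ℝ {w : E | ∃ γ : Γ, ∃ v ∈ S, (hol γ).linear v = w} = ⊤ →
      IsHomeomorph dev) ∧
    ((∀ x : X, ∀ v ∈ S, Geod dev x v ∧ Geod dev x (-v)) →
      Module.finrank ℝ E ≤ Module.finrank ℝ
        (Submodule.span ℝ {w : E | ∃ γ : Γ, ∃ v ∈ S, (hol γ).linear v = w}) + 1 →
      IsHomeomorph dev) ∧
    (∀ C : Set E, C.Nonempty → (∀ γ : Γ, ∀ q ∈ C, hol γ q ∈ C) →
      (∀ q ∈ C, ∀ v ∈ S, ∀ t : ℝ, 0 ≤ t → t ≤ 1 → q + t • v ∈ C) →
      Submodule.span ℝ {w : E | ∃ γ : Γ, ∃ v ∈ S, (hol γ).linear v = w} = ⊤ →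
      C = Set.univ) := by
  refine ⟨fun h hspan => ?_, fun h hrank => ?_, fun C hne hinv hS hspan => ?_⟩
  · apply complete_of_dirs D
    rw [eq_top_iff, ← hspan, Submodule.span_le]
    rintro _ ⟨γ, v, hv, rfl⟩
    exact Submodule.subset_span (CD.lin D γ fun x => Geod.ex D.loc (h x v hv))
  · have hP : ∀ w ∈ Submodule.span ℝ {w : E | ∃ γ : Γ, ∃ v ∈ S, (hol γ).linear v = w},
        w ∈ CD dev := by
      refine span_sub (P := fun w => w ∈ CD dev) (zero_mem_CD D.loc)
        (fun v w hv hw => CD.add D.loc hv hw) (fun v hv t ht => CD.smul D.loc hv ht) ?_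
      rintro _ ⟨γ, v, hv, rfl⟩
      refine ⟨CD.lin D γ fun x => Geod.ex D.loc (h x v hv).1, ?_⟩
      have h1 := CD.lin D γ (v := -v) fun x => Geod.ex D.loc (h x v hv).2
      rwa [lin_neg] at h1
    by_cases htop : Submodule.span ℝ {w : E | ∃ γ : Γ, ∃ v ∈ S, (hol γ).linear v = w} = ⊤
    · obtain ⟨x0⟩ := (inferInstance : Nonempty X)
      refine homeo_of_all D.loc (x := x0) fun v => hP v ?_ x0
      rw [htop]
      exact Submodule.mem_top
    · obtain ⟨f, hf, hle⟩ := Submodule.exists_le_ker_of_lt_top _ (lt_top_iff_ne_top.2 htop)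
      have hr : Module.finrank ℝ (LinearMap.ker f) < Module.finrank ℝ E := by
        apply Submodule.finrank_lt
        intro h1
        exact hf (LinearMap.ker_eq_top.1 h1)
      have heq := Submodule.eq_of_le_of_finrank_le hle (by omega)
      let φ : E →L[ℝ] ℝ := LinearMap.toContinuousLinearMap f
      have hφ : φ ≠ 0 := by
        intro h1
        apply hf
        ext v
        exact congrArg (fun g : E →L[ℝ] ℝ => g v) h1
      refine complete_of_hyperplane D hφ fun v hv => hP v ?_
      rw [heq]
      exact hv
  · exact invariant_univ D hne hinv hS hspan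

end Pool.Agent.Results.MP_df2bd8_gt.CompleteDirections
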