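import Pool.Agent.TH569.MK.ExpChain

/-!
A completeness criterion for closed affine manifolds with parallel volume: complete directions,
then directions on which the linear holonomy is bounded, then expanding transversal directions.
-/

set_option autoImplicit false

open Pool.Agent.W689.Mk Pool.Agent.TH569.MK

namespace Pool.Agent.Results.MP_df2bd8_gt.ConformalFoliations

/-- Let a closed affine manifold with parallel volume be given by a connected cover `X` with its
group `Γ`, developing map `dev` and holonomy `hol`. Suppose that there are linear subspaces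
`S 0, S 1, …, S m` of the model vector space such that

* all geodesics with velocity in `S 0` are defined up to time one,
* the linear holonomy is bounded on `S (i + 1)` modulo `S i`, for all `i < m`,
* `S m` contains the kernel of a linear surjection `π` onto a Euclidean space `Q` to which the
  linear holonomy descends, as `ρ`, and `ρ` is expanding whenever it is large: `‖ρ γ‖ → ∞` implies
  `‖ρ γ⁻¹‖ → 0`.

Then the affine structure is complete: the developing map is a homeomorphism onto the model affine
space. The last condition holds for all groups of similarities, for groups of anisotropic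
dilations composed with commuting isometries, and always if `dim Q ≤ 1`. -/
theorem result (E X Γ Q : Type) [NormedAddCommGroup E] [NormedSpace ℝ E] [FiniteDimensional ℝ E]
    [TopologicalSpace X] [T2Space X] [SecondCountableTopology X] [ConnectedSpace X]
    [Group Γ] [MulAction Γ X] (dev : X → E) (hol : Γ →* (E ≃ᵃ[ℝ] E))
    (D : AffData X Γ E dev hol)
    (S : ℕ → Submodule ℝ E) (m : ℕ)
    (hS : ∀ (x : X), ∀ v ∈ S 0, Geod dev x v)
    (hC : ∀ i < m, ∃ C : ℝ, ∀ γ : Γ, ∀ v ∈ S (i + 1), ∃ w ∈ S i,
      ‖(hol γ).linear v - w‖ ≤ C * ‖v‖)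
    [NormedAddCommGroup Q] [InnerProductSpace ℝ Q]
    (π : E →L[ℝ] Q) (hπ : Function.Surjective π) (hker : ∀ v, π v = 0 → v ∈ S m)
    (ρ : Γ → Q →L[ℝ] Q) (hρ : ∀ γ v, π ((hol γ).linear v) = ρ γ (π v))
    (hP : ∀ ε : ℝ, 0 < ε → ∃ R : ℝ, ∀ γ, R ≤ ‖ρ γ‖ → ‖ρ γ⁻¹‖ ≤ ε) :
    IsHomeomorph dev :=
  exp_chain_complete D S m hS hC π hπ hker ρ hρ hP

end Pool.Agent.Results.MP_df2bd8_gt.ConformalFoliations
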