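import Pool.Agent.TH94.MK.Many

set_option autoImplicit false

open MeasureTheory
open Pool.Agent.W689.Mk

namespace Pool.Agent.Results.MP_df2bd8_gt.ManyIncompleteVectors

/-- A closed affine manifold with parallel volume is given by a connected cover `X` with its group
`Γ`, developing map `dev` and holonomy `hol`. Suppose it is not complete: the developing map is not
a homeomorphism onto the affine space. Let `n` be the dimension and for a point `x` let `K x` be
the set of initial velocities of the geodesics from `x` that are not defined up to time one.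

* If the developing map is not injective, `K x` has nonzero Hausdorff measure of dimension `n - 1`
  for every `x`.
* If the developing map is injective then for every `x` each vector of `K x` lies in a half-plane
  contained in `K x`; and if every linear holonomy element is bounded from below by a constant `c`
  on some subspace of dimension `m`, then `K x` contains a truncated cone of dimension `m + 1`
  over a cube.
* If the condition on the holonomy holds for `m = n - 2` (discompacity at most two), `K x` has
  nonzero Hausdorff measure of dimension `n - 1` for every `x`. -/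
theorem result (E X Γ : Type) [NormedAddCommGroup E] [NormedSpace ℝ E] [FiniteDimensional ℝ E]
    [MeasurableSpace E] [BorelSpace E]
    [TopologicalSpace X] [T2Space X] [SecondCountableTopology X] [ConnectedSpace X]
    [Group Γ] [MulAction Γ X] (dev : X → E) (hol : Γ →* (E ≃ᵃ[ℝ] E))
    (D : AffData X Γ E dev hol) (hinc : ¬ IsHomeomorph dev) :
    (¬ Function.Injective dev → ∀ x : X,
      μH[(Module.finrank ℝ E : ℝ) - 1] {v : E | ¬ Geod dev x v} ≠ 0) ∧
    (Function.Injective dev → ∀ x : X,
      (∀ v : E, ¬ Geod dev x v → ∃ (t : ℝ) (u : E), 0 < t ∧ t ≤ 1 ∧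
        LinearIndependent ℝ ![v, u] ∧
        ∀ l : ℝ, t ≤ l → ∀ s : ℝ, ¬ Geod dev x (l • v + s • u)) ∧
      ∀ (m : ℕ) (c : ℝ), 0 < c → (∀ γ : Γ, ∃ V : Submodule ℝ E, Module.finrank ℝ V = m ∧
        ∀ v ∈ V, c * ‖v‖ ≤ ‖(hol γ).linear v‖) →
        ∃ b : Fin (m + 1) → E, LinearIndependent ℝ b ∧ ∀ s : Fin (m + 1) → ℝ, 1 ≤ s 0 →
          (∀ i, |s i| ≤ s 0) → ¬ Geod dev x (∑ i, s i • b i)) ∧
    (∀ (m : ℕ) (c : ℝ), m + 2 = Module.finrank ℝ E → 0 < c →
      (∀ γ : Γ, ∃ V : Submodule ℝ E, Module.finrank ℝ V = m ∧
        ∀ v ∈ V, c * ‖v‖ ≤ ‖(hol γ).linear v‖) →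
      ∀ x : X, μH[(Module.finrank ℝ E : ℝ) - 1] {v : E | ¬ Geod dev x v} ≠ 0) :=
  Pool.Agent.TH94.MK.many D hinc

end Pool.Agent.Results.MP_df2bd8_gt.ManyIncompleteVectors
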