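import Pool.Agent.FC640.MK.Sides

set_option autoImplicit false

open Pool.Agent.W689.Mk MeasureTheory

namespace Pool.Agent.Results.MP_df2bd8_gt.OneSidedDirections

/-- A closed affine manifold with parallel volume, given by a cover `X` with its group `Γ`,
developing map `dev` and holonomy `hol`. A geodesic direction is never complete on one side only,
up to null sets.

First part: `m` is a finite measure on directions which is invariant under the projectivised linear
holonomy. For `m`-almost every direction `u` and for almost every point `q` of every chart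
`(U, σ)`, the geodesic ray from `σ q` with velocity `u` is defined for all times if and only if the
ray with velocity `-u` is.

Second part: the same for every vector `u` which spans a line invariant under the linear
holonomy. -/
theorem result (E X Γ : Type) [NormedAddCommGroup E] [NormedSpace ℝ E] [FiniteDimensional ℝ E]
    [MeasurableSpace E] [BorelSpace E] (lam : Measure E) [lam.IsAddHaarMeasure]
    [TopologicalSpace X] [T2Space X] [SecondCountableTopology X] [Nonempty X]
    [Group Γ] [MulAction Γ X] (dev : X → E) (hol : Γ →* (E ≃ᵃ[ℝ] E))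
    (D : AffData X Γ E dev hol) :
    (∀ (m : Measure E) [IsFiniteMeasure m],
      (∀ γ : Γ, m.map (fun u => (‖u‖ / ‖(hol γ).linear u‖) • (hol γ).linear u) = m) →
      ∀ᵐ u ∂m, ∀ (U : Set E) (σ : E → X), Sec dev U σ → ∀ᵐ q ∂(lam.restrict U),
        ((∀ t : ℝ, 0 ≤ t → Geod dev (σ q) (t • u)) ↔
          (∀ t : ℝ, 0 ≤ t → Geod dev (σ q) (-(t • u))))) ∧
    (∀ u : E, (∀ γ : Γ, ∃ c : ℝ, (hol γ).linear u = c • u) →
      ∀ (U : Set E) (σ : E → X), Sec dev U σ → ∀ᵐ q ∂(lam.restrict U),
        ((∀ t : ℝ, 0 ≤ t → Geod dev (σ q) (t • u)) ↔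
          (∀ t : ℝ, 0 ≤ t → Geod dev (σ q) (-(t • u))))) := by
  refine ⟨?_, ?_⟩
  · intro m _ hm
    exact Pool.Agent.FC640.MK.sides lam D m hm
  · intro u hu
    exact Pool.Agent.FC640.MK.sides_line lam D u hu

end Pool.Agent.Results.MP_df2bd8_gt.OneSidedDirections
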